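import Pool.Agent.Helper86.SJ.Defs
import Pool.Agent.Helper87.SG.KL3

/-!
# Project SG: odd `t = -(2 d + 1)`, and the trivial case `k ≤ s`
-/

set_option autoImplicit false

open Finset
open scoped Classical

namespace Pool.Agent.Helper43.SG

open SJ Pool.Agent.Helper87.SG

/-- independent in `J_±(n,k,-s)` -/
def IndJs (n k s : ℕ) (F : Finset (Fin n → ℤ)) : Prop :=
  (∀ v ∈ F, IsV n k v) ∧ ∀ u ∈ F, ∀ v ∈ F, u ≠ v → dot u v ≠ -(s : ℤ)

/-- independent in `K_±(n,k,-s)` -/
def IndKs (n k s : ℕ) (F : Finset (Fin n → ℤ)) : Prop :=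
  (∀ v ∈ F, IsV n k v) ∧ ∀ u ∈ F, ∀ v ∈ F, u ≠ v → ¬ dot u v ≤ -(s : ℤ)

variable {n k : ℕ}

theorem mem_supp {v : Fin n → ℤ} {i : Fin n} : i ∈ supp v ↔ v i ≠ 0 := by
  simp [supp]

theorem pm_of {v : Fin n → ℤ} (hv : IsV n k v) {i : Fin n} (hi : v i ≠ 0) :
    v i = 1 ∨ v i = -1 := by
  rcases hv.1 i with h | h | h
  · exact Or.inr h
  · exact absurd h hi
  · exact Or.inl h

theorem dot_ge {u v : Fin n → ℤ} (hu : IsV n k u) (hv : IsV n k v) : -(k : ℤ) ≤ dot u v := by
  have h1 : dot u v = ∑ i ∈ supp u, u i * v i := by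
    unfold dot
    symm
    apply Finset.sum_subset (Finset.subset_univ _)
    intro i _ hi
    have : u i = 0 := by
      by_contra h
      exact hi (mem_supp.2 h)
    rw [this, zero_mul]
  rw [h1]
  have h2 : ∑ i ∈ supp u, (-1 : ℤ) ≤ ∑ i ∈ supp u, u i * v i := by
    apply Finset.sum_le_sum
    intro i _
    rcases hu.1 i with h | h | h <;> rcases hv.1 i with h' | h' | h' <;> rw [h, h'] <;> norm_num
  rw [Finset.sum_const, hu.2] at h2
  simpa using h2

theorem triv {s : ℕ} (hk : k ≤ s) {F : Finset (Fin n → ℤ)} (hF : IndJs n k s F) :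
    IndKs n k s F := by
  refine ⟨hF.1, fun u hu v hv huv h => hF.2 u hu v hv huv ?_⟩
  have h1 := dot_ge (hF.1 u hu) (hF.1 v hv)
  have h2 : (k : ℤ) ≤ s := by exact_mod_cast hk
  omega

/-- the vector with support `S`, negative on `T` -/
def vec (S T : Finset (Fin n)) (i : Fin n) : ℤ := if i ∈ S then (if i ∈ T then -1 else 1) else 0

/-- the negative coordinates -/
def ng (v : Fin n → ℤ) : Finset (Fin n) := univ.filter fun i => v i = -1

theorem supp_vec (S T : Finset (Fin n)) : supp (vec S T) = S := by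
  ext i
  rw [mem_supp]
  unfold vec
  split_ifs with h1 h2 <;> simp [h1]

theorem isV_vec {S : Finset (Fin n)} (T : Finset (Fin n)) (hS : #S = k) :
    IsV n k (vec S T) := by
  refine ⟨fun i => ?_, by rw [supp_vec, hS]⟩
  unfold vec
  split_ifs <;> simp

theorem ng_vec {S T : Finset (Fin n)} (hT : T ⊆ S) : ng (vec S T) = T := by
  ext i
  unfold ng vec
  rw [Finset.mem_filter]
  constructor
  · rintro ⟨-, h⟩
    by_contra h2
    rw [if_neg h2] at h
    split_ifs at h
  · intro h
    rw [if_pos (hT h), if_pos h]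
    exact ⟨Finset.mem_univ _, rfl⟩

theorem card_small {α : Type} (S : Finset α) (d : ℕ) :
    #(S.powerset.filter fun T => #T ≤ d) = ∑ i ∈ range (d + 1), (#S).choose i := by
  have h : S.powerset.filter (fun T => #T ≤ d) =
      (range (d + 1)).biUnion fun i => powersetCard i S := by
    ext T
    simp only [mem_filter, mem_powerset, mem_biUnion, mem_range, mem_powersetCard]
    constructor
    · rintro ⟨h1, h2⟩
      exact ⟨#T, by omega, h1, rfl⟩
    · rintro ⟨i, h1, h2, h3⟩
      exact ⟨h2, by omega⟩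
  rw [h, card_biUnion]
  · exact Finset.sum_congr rfl fun i _ => card_powersetCard _ _
  · intro i _ j _ hij
    exact Finset.pairwise_disjoint_powersetCard S hij

/-- the construction -/
theorem low (n k d : ℕ) : ∃ F' : Finset (Fin n → ℤ), IndKs n k (2 * d + 1) F' ∧
    #F' = n.choose k * ∑ i ∈ range (d + 1), k.choose i := by
  refine ⟨(powersetCard k (univ : Finset (Fin n))).biUnion fun S =>
    (S.powerset.filter fun T => #T ≤ d).image (vec S), ⟨?_, ?_⟩, ?_⟩
  · intro v hv
    obtain ⟨S, hS, hv⟩ := mem_biUnion.1 hv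
    obtain ⟨T, -, rfl⟩ := mem_image.1 hv
    exact isV_vec T (mem_powersetCard.1 hS).2
  · intro u hu v hv _ h
    obtain ⟨S, hS, hu⟩ := mem_biUnion.1 hu
    obtain ⟨T, hT, rfl⟩ := mem_image.1 hu
    obtain ⟨S', hS', hv⟩ := mem_biUnion.1 hv
    obtain ⟨T', hT', rfl⟩ := mem_image.1 hv
    have hT1 := (mem_filter.1 hT).2
    have hT2 := (mem_filter.1 hT').2
    have h1 : ∑ i ∈ T ∪ T', (-1 : ℤ) ≤ dot (vec S T) (vec S' T') := by
      unfold dot
      rw [← Finset.sum_add_sum_compl (T ∪ T')]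
      have h2 : ∑ i ∈ T ∪ T', (-1 : ℤ) ≤ ∑ i ∈ T ∪ T', vec S T i * vec S' T' i := by
        apply Finset.sum_le_sum
        intro i _
        unfold vec
        split_ifs <;> norm_num
      have h3 : (0 : ℤ) ≤ ∑ i ∈ (T ∪ T')ᶜ, vec S T i * vec S' T' i := by
        apply Finset.sum_nonneg
        intro i hi
        have hi' := mem_compl.1 hi
        have hi1 : i ∉ T := fun h => hi' (mem_union_left _ h)
        have hi2 : i ∉ T' := fun h => hi' (mem_union_right _ h)
        unfold vec
        rw [if_neg hi1, if_neg hi2]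
        split_ifs <;> norm_num
      linarith
    rw [Finset.sum_const] at h1
    have h4 : #(T ∪ T') ≤ 2 * d := (card_union_le _ _).trans (by omega)
    have h5 : (#(T ∪ T') : ℤ) ≤ 2 * d := by exact_mod_cast h4
    simp only [smul_neg, nsmul_eq_mul, mul_one] at h1
    push_cast at h
    linarith
  · rw [card_biUnion]
    · have h1 : ∀ S ∈ powersetCard k (univ : Finset (Fin n)),
          #((S.powerset.filter fun T => #T ≤ d).image (vec S)) =
            ∑ i ∈ range (d + 1), k.choose i := by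
        intro S hS
        rw [card_image_of_injOn, card_small, (mem_powersetCard.1 hS).2]
        intro T hT T' hT' h
        have e1 := (mem_powerset.1 (mem_filter.1 (Finset.mem_coe.1 hT)).1)
        have e2 := (mem_powerset.1 (mem_filter.1 (Finset.mem_coe.1 hT')).1)
        have h' : vec S T = vec S T' := h
        rw [← ng_vec e1, ← ng_vec e2, h']
      rw [Finset.sum_congr rfl h1, Finset.sum_const, card_powersetCard, card_univ,
        Fintype.card_fin, smul_eq_mul]
    · intro S _ S' _ hne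
      rw [Function.onFun, Finset.disjoint_left]
      intro v hv hv'
      obtain ⟨T, -, rfl⟩ := mem_image.1 hv
      obtain ⟨T', -, h⟩ := mem_image.1 hv'
      apply hne
      rw [← supp_vec S T, ← supp_vec S' T', h]

/-- the number of `k`-sets containing `B` -/
theorem card_super (B : Finset (Fin n)) (hB : #B ≤ k) :
    #((powersetCard k (univ : Finset (Fin n))).filter fun S => B ⊆ S) =
      (n - #B).choose (k - #B) := by
  have h : #(powersetCard (k - #B) (univ \ B : Finset (Fin n))) = (n - #B).choose (k - #B) := by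
    rw [card_powersetCard, card_sdiff_of_subset (subset_univ _), card_univ, Fintype.card_fin]
  rw [← h]
  apply Finset.card_nbij' (fun S => S \ B) (fun R => R ∪ B)
  · intro S hS
    obtain ⟨h1, h2⟩ := mem_filter.1 (Finset.mem_coe.1 hS)
    have h3 := (mem_powersetCard.1 h1).2
    apply Finset.mem_coe.2
    rw [mem_powersetCard]
    exact ⟨sdiff_subset_sdiff (subset_univ _) subset_rfl, by
      rw [card_sdiff_of_subset h2, h3]⟩
  · intro R hR
    obtain ⟨h1, h2⟩ := mem_powersetCard.1 (Finset.mem_coe.1 hR)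
    apply Finset.mem_coe.2
    rw [mem_filter, mem_powersetCard]
    refine ⟨⟨subset_univ _, ?_⟩, subset_union_right⟩
    rw [card_union_of_disjoint, h2]
    · omega
    · rw [Finset.disjoint_left]
      intro i hi
      exact (mem_sdiff.1 (h1 hi)).2
  · intro S hS
    obtain ⟨h1, h2⟩ := mem_filter.1 (Finset.mem_coe.1 hS)
    exact sdiff_union_of_subset h2
  · intro R hR
    obtain ⟨h1, h2⟩ := mem_powersetCard.1 (Finset.mem_coe.1 hR)
    change (R ∪ B) \ B = R
    rw [union_sdiff_right]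
    apply sdiff_eq_self_of_disjoint
    rw [Finset.disjoint_left]
    intro i hi
    exact (mem_sdiff.1 (h1 hi)).2

/-- `v` clashes at `Y` -/
def Cl (F : Finset (Fin n → ℤ)) (v : Fin n → ℤ) (Y : Finset (Fin n)) : Prop :=
  Y ⊆ supp v ∧ ∃ w ∈ F, ∀ i ∈ Y, w i = - v i

/-- supports of members clashing at an `s`-set -/
noncomputable def H (k s : ℕ) (F : Finset (Fin n → ℤ)) : Finset (Finset (Fin n)) :=
  (powersetCard k univ).filter fun S => ∃ v ∈ F, supp v = S ∧ ∃ Y, #Y = s ∧ Cl F v Y

/-- supports of fewer than `N` members -/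
noncomputable def L (k N : ℕ) (F : Finset (Fin n → ℤ)) : Finset (Finset (Fin n)) :=
  (powersetCard k univ).filter fun S => #(fib F S) < N

theorem mem_fib {F : Finset (Fin n → ℤ)} {S : Finset (Fin n)} {v : Fin n → ℤ} :
    v ∈ fib F S ↔ v ∈ F ∧ supp v = S := by
  unfold fib
  rw [mem_filter]

/-- the negative coordinates in `S` -/
def nS (S : Finset (Fin n)) (v : Fin n → ℤ) : Finset S := univ.filter fun i : S => v i = -1

theorem mem_nS {S : Finset (Fin n)} {v : Fin n → ℤ} {i : S} : i ∈ nS S v ↔ v i = -1 := by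
  simp [nS]

theorem nS_inj {F : Finset (Fin n → ℤ)} (hF : ∀ v ∈ F, IsV n k v) (S : Finset (Fin n)) :
    Set.InjOn (nS S) (fib F S : Set (Fin n → ℤ)) := by
  intro v hv v' hv' h
  obtain ⟨h1, h2⟩ := mem_fib.1 (Finset.mem_coe.1 hv)
  obtain ⟨h1', h2'⟩ := mem_fib.1 (Finset.mem_coe.1 hv')
  funext i
  by_cases hi : i ∈ S
  · have e1 : v i ≠ 0 := mem_supp.1 (h2 ▸ hi)
    have e2 : v' i ≠ 0 := mem_supp.1 (h2' ▸ hi)
    have e3 : v i = -1 ↔ v' i = -1 := by
      have := Finset.ext_iff.1 h ⟨i, hi⟩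
      rwa [mem_nS, mem_nS] at this
    rcases pm_of (hF v h1) e1 with a | a <;> rcases pm_of (hF v' h1') e2 with b | b
    · rw [a, b]
    · exact absurd (e3.2 b) (by rw [a]; norm_num)
    · exact absurd (e3.1 a) (by rw [b]; norm_num)
    · rw [a, b]
  · have e1 : v i = 0 := by
      by_contra h0
      exact hi (h2 ▸ mem_supp.2 h0)
    have e2 : v' i = 0 := by
      by_contra h0
      exact hi (h2' ▸ mem_supp.2 h0)
    rw [e1, e2]

theorem fib_le_pow {F : Finset (Fin n → ℤ)} (hF : ∀ v ∈ F, IsV n k v) {S : Finset (Fin n)}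
    (hS : #S = k) : #(fib F S) ≤ 2 ^ k := by
  rw [← card_image_of_injOn (nS_inj hF S)]
  calc #((fib F S).image (nS S)) ≤ Fintype.card (Finset S) := card_le_univ _
    _ = 2 ^ k := by rw [Fintype.card_finset, Fintype.card_coe, hS]

theorem diam {F : Finset (Fin n → ℤ)} (hF : ∀ v ∈ F, IsV n k v) {S : Finset (Fin n)}
    (hS : #S = k) {s : ℕ} (hSH : S ∉ H k s F) :
    ∀ A ∈ (fib F S).image (nS S), ∀ B ∈ (fib F S).image (nS S), #(symmDiff A B) < s := by
  intro A hA B hB
  obtain ⟨v, hv, rfl⟩ := mem_image.1 hA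
  obtain ⟨w, hw, rfl⟩ := mem_image.1 hB
  obtain ⟨h1, h2⟩ := mem_fib.1 hv
  obtain ⟨h1', h2'⟩ := mem_fib.1 hw
  by_contra hlt
  obtain ⟨Y, hY, hYc⟩ := exists_subset_card_eq (not_lt.1 hlt)
  apply hSH
  unfold H
  rw [mem_filter, mem_powersetCard]
  refine ⟨⟨subset_univ _, hS⟩, v, h1, h2, Y.map (Function.Embedding.subtype _), ?_, ?_, w, h1', ?_⟩
  · rw [card_map, hYc]
  · intro i hi
    obtain ⟨j, -, rfl⟩ := mem_map.1 hi
    rw [h2]
    exact j.2
  · intro i hi
    obtain ⟨j, hj, rfl⟩ := mem_map.1 hi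
    have h3 := hY hj
    have e1 : v j ≠ 0 := mem_supp.1 (h2 ▸ j.2)
    have e2 : w j ≠ 0 := mem_supp.1 (h2' ▸ j.2)
    rw [mem_symmDiff, mem_nS, mem_nS] at h3
    change w j = - v j
    rcases pm_of (hF v h1) e1 with a | a <;> rcases pm_of (hF w h1') e2 with b | b
    · exfalso
      rw [a, b] at h3
      norm_num at h3
    · rw [a, b]
    · rw [a, b]
      norm_num
    · exfalso
      rw [a, b] at h3
      norm_num at h3

/-- the sum over the supports -/
theorem card_eq {F : Finset (Fin n → ℤ)} (hF : ∀ v ∈ F, IsV n k v) :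
    #F = ∑ S ∈ powersetCard k (univ : Finset (Fin n)), #(fib F S) := by
  rw [Finset.card_eq_sum_card_fiberwise (f := supp) (t := powersetCard k (univ : Finset (Fin n)))]
  · rfl
  · intro v hv
    apply Finset.mem_coe.2
    rw [mem_powersetCard]
    exact ⟨subset_univ _, (hF v (Finset.mem_coe.1 hv)).2⟩

theorem sum_le {F : Finset (Fin n → ℤ)} (hF : ∀ v ∈ F, IsV n k v) {s N : ℕ}
    (hN : ∀ S : Finset (Fin n), #S = k → S ∉ H k s F → #(fib F S) ≤ N) :
    #F + #(L k N F) ≤ n.choose k * N + 2 ^ k * #(H k s F) := by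
  have h1 : #(L k N F) = ∑ S ∈ powersetCard k (univ : Finset (Fin n)),
      if #(fib F S) < N then 1 else 0 := by
    unfold L
    rw [card_filter]
  have h2 : #(H k s F) = ∑ S ∈ powersetCard k (univ : Finset (Fin n)),
      if S ∈ H k s F then 1 else 0 := by
    have : H k s F = (powersetCard k (univ : Finset (Fin n))).filter fun S => S ∈ H k s F := by
      ext S
      rw [mem_filter]
      constructor
      · intro h
        refine ⟨?_, h⟩
        unfold H at h
        exact (mem_filter.1 h).1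
      · exact fun h => h.2
    conv_lhs => rw [this]
    rw [card_filter]
  have h3 : n.choose k * N = ∑ S ∈ powersetCard k (univ : Finset (Fin n)), N := by
    rw [sum_const, card_powersetCard, card_univ, Fintype.card_fin, smul_eq_mul]
  rw [card_eq hF, h1, h2, h3, Finset.mul_sum, ← Finset.sum_add_distrib, ← Finset.sum_add_distrib]
  apply Finset.sum_le_sum
  intro S hS
  have hk := (mem_powersetCard.1 hS).2
  have e1 := fib_le_pow hF hk
  by_cases hH : S ∈ H k s F
  · rw [if_pos hH]
    split_ifs with h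
    · omega
    · omega
  · rw [if_neg hH]
    have e2 := hN S hk hH
    split_ifs with h
    · omega
    · omega

/-- supports of members clashing at `Y` -/
noncomputable def cP (F : Finset (Fin n → ℤ)) (Y : Finset (Fin n)) : Finset (Finset (Fin n)) :=
  (F.filter fun v => Cl F v Y).image supp

theorem dot_clash {v w : Fin n → ℤ} (hv : IsV n k v) {Y : Finset (Fin n)} (hY : Y ⊆ supp v)
    (hw : ∀ i ∈ Y, w i = - v i) (h0 : ∀ i, i ∉ Y → v i = 0 ∨ w i = 0) :
    dot v w = -(#Y : ℤ) := by
  have h1 : dot v w = ∑ i ∈ Y, v i * w i := by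
    unfold dot
    symm
    apply Finset.sum_subset (Finset.subset_univ _)
    intro i _ hi
    rcases h0 i hi with h | h <;> rw [h] <;> ring
  rw [h1]
  have h2 : ∀ i ∈ Y, v i * w i = -1 := by
    intro i hi
    rw [hw i hi]
    rcases pm_of hv (mem_supp.1 (hY hi)) with a | a <;> rw [a] <;> norm_num
  rw [Finset.sum_congr rfl h2, Finset.sum_const]
  simp

theorem cP_le {F : Finset (Fin n → ℤ)} {s : ℕ} (hF : IndJs n k s F) (hs : 1 ≤ s) (hk : s + 1 ≤ k)
    {Y : Finset (Fin n)} (hY : #Y = s) :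
    #(cP F Y) ≤ 2 ^ s * ((k - s) * (n - (s + 1)).choose (k - (s + 1))) := by
  have hsub : cP F Y ⊆ Y.powerset.biUnion fun A =>
      (F.filter fun v => Cl F v Y ∧ ng v ∩ Y = A).image supp := by
    intro S hS
    unfold cP at hS
    obtain ⟨v, hv, rfl⟩ := mem_image.1 hS
    obtain ⟨h1, h2⟩ := mem_filter.1 hv
    rw [mem_biUnion]
    exact ⟨ng v ∩ Y, mem_powerset.2 inter_subset_right,
      mem_image_of_mem _ (mem_filter.2 ⟨h1, h2, rfl⟩)⟩
  refine (card_le_card hsub).trans ?_
  refine (card_biUnion_le_card_mul _ _ ((k - s) * (n - (s + 1)).choose (k - (s + 1))) ?_).trans ?_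
  · intro A _
    rcases (F.filter fun v => Cl F v Y ∧ ng v ∩ Y = A).eq_empty_or_nonempty with h | ⟨v0, hv0⟩
    · rw [h]
      simp
    · obtain ⟨h1, ⟨h2, w0, hw0, hw⟩, h3⟩ := mem_filter.1 hv0
      have hYw : Y ⊆ supp w0 := by
        intro i hi
        rw [mem_supp, hw i hi]
        exact neg_ne_zero.2 (mem_supp.1 (h2 hi))
      have hcard : #(supp w0 \ Y) = k - s := by
        rw [card_sdiff_of_subset hYw, (hF.1 w0 hw0).2, hY]
      have hsub2 : (F.filter fun v => Cl F v Y ∧ ng v ∩ Y = A).image supp ⊆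
          (supp w0 \ Y).biUnion fun z =>
            (powersetCard k (univ : Finset (Fin n))).filter fun S => insert z Y ⊆ S := by
        intro S hS
        obtain ⟨v, hv, rfl⟩ := mem_image.1 hS
        obtain ⟨g1, ⟨g2, -⟩, g3⟩ := mem_filter.1 hv
        have hvv : ∀ i ∈ Y, v i = v0 i := by
          intro i hi
          have e3 : v i = -1 ↔ v0 i = -1 := by
            have h4 := Finset.ext_iff.1 (g3.trans h3.symm) i
            unfold ng at h4
            simp only [mem_inter, mem_filter, mem_univ, true_and, hi, and_true] at h4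
            exact h4
          rcases pm_of (hF.1 v g1) (mem_supp.1 (g2 hi)) with a | a <;>
            rcases pm_of (hF.1 v0 h1) (mem_supp.1 (h2 hi)) with b | b
          · rw [a, b]
          · exact absurd (e3.2 b) (by rw [a]; norm_num)
          · exact absurd (e3.1 a) (by rw [b]; norm_num)
          · rw [a, b]
        have hw' : ∀ i ∈ Y, w0 i = - v i := fun i hi => by rw [hw i hi, hvv i hi]
        have hne : v ≠ w0 := by
          intro h
          have hYne : Y.Nonempty := by
            rw [← card_pos, hY]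
            omega
          obtain ⟨i, hi⟩ := hYne
          have e1 := hw' i hi
          have e2 := mem_supp.1 (g2 hi)
          rw [← h] at e1
          omega
        have hz : ∃ z, z ∉ Y ∧ v z ≠ 0 ∧ w0 z ≠ 0 := by
          by_contra hcon
          push Not at hcon
          apply hF.2 v g1 w0 hw0 hne
          rw [← hY]
          apply dot_clash (hF.1 v g1) g2 hw'
          intro i hi
          by_cases h0 : v i = 0
          · exact Or.inl h0
          · exact Or.inr (hcon i hi h0)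
        obtain ⟨z, hz1, hz2, hz3⟩ := hz
        rw [mem_biUnion]
        refine ⟨z, mem_sdiff.2 ⟨mem_supp.2 hz3, hz1⟩, ?_⟩
        rw [mem_filter, mem_powersetCard]
        exact ⟨⟨subset_univ _, (hF.1 v g1).2⟩, insert_subset (mem_supp.2 hz2) g2⟩
      refine (card_le_card hsub2).trans ?_
      rw [← hcard]
      apply card_biUnion_le_card_mul
      intro z hz
      have hzY : #(insert z Y) = s + 1 := by
        rw [card_insert_of_notMem (mem_sdiff.1 hz).2, hY]
      rw [card_super (insert z Y) (by rw [hzY]; exact hk), hzY]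
  · rw [card_powerset, hY]

/-- the points of `Y` where `x` disagrees with `C` -/
noncomputable def dis (S Y : Finset (Fin n)) (C : Finset S) (x : Fin n → ℤ) : Finset S :=
  univ.filter fun i : S => (i : Fin n) ∈ Y ∧ ¬ (x i = -1 ↔ i ∈ C)

theorem mem_dis {S Y : Finset (Fin n)} {C : Finset S} {x : Fin n → ℤ} {i : S} :
    i ∈ dis S Y C x ↔ (i : Fin n) ∈ Y ∧ ¬ (x i = -1 ↔ i ∈ C) := by
  unfold dis
  rw [mem_filter]
  exact ⟨fun h => h.2, fun h => ⟨mem_univ _, h⟩⟩

/-- all supersets of a clashing set are exceptional -/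
theorem super_ex (hKL : KL2Stm) {d : ℕ} (hk : 2 * d + 2 ≤ k) {F : Finset (Fin n → ℤ)}
    (hF : ∀ v ∈ F, IsV n k v) {S Y : Finset (Fin n)} (hS : #S = k) (hY : #Y = 2 * d + 1)
    (hYS : Y ⊆ S) {v : Fin n → ℤ} (hv : v ∈ F) (hcl : Cl F v Y)
    (hSH : S ∉ H k (2 * d + 1) F) :
    #(fib F S) < ∑ i ∈ range (d + 1), k.choose i := by
  by_contra hlt
  obtain ⟨hYv, w, hw, hwv⟩ := hcl
  have hcard : Fintype.card S = k := by rw [Fintype.card_coe, hS]
  have hdiam := diam hF hS hSH
  obtain ⟨h1, h2⟩ := hKL S d ((fib F S).image (nS S)) (by rw [hcard]; omega)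
    (fun A hA B hB => Nat.le_of_lt_succ (hdiam A hA B hB))
  rw [hcard, card_image_of_injOn (nS_inj hF S)] at h1
  obtain ⟨C, hC⟩ := h2 (by rw [hcard]; exact hk) (by
    rw [hcard, card_image_of_injOn (nS_inj hF S)]
    omega)
  -- one of the two disagrees at most `d` times
  have key : ∀ x ∈ F, ∀ x' ∈ F, Y ⊆ supp x → (∀ i ∈ Y, x' i = - x i) →
      #(dis S Y C x) ≤ d → False := by
    intro x hx x' hx' hYx hxx' hd
    obtain ⟨A, hA⟩ : ∃ A : Finset S, ∀ i : S, i ∈ A ↔
        (((i : Fin n) ∈ Y ∧ x i = -1) ∨ ((i : Fin n) ∉ Y ∧ i ∈ C)) :=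
      ⟨univ.filter fun i : S => (((i : Fin n) ∈ Y ∧ x i = -1) ∨ ((i : Fin n) ∉ Y ∧ i ∈ C)),
        fun i => by rw [mem_filter]; exact ⟨fun h => h.2, fun h => ⟨mem_univ _, h⟩⟩⟩
    have hmem : A ∈ (fib F S).image (nS S) := by
      rw [hC, mem_filter]
      refine ⟨mem_univ _, (card_le_card ?_).trans hd⟩
      intro i hi
      rw [mem_symmDiff, hA] at hi
      rw [mem_dis]
      by_cases hiY : (i : Fin n) ∈ Y
      · refine ⟨hiY, ?_⟩
        by_cases h1 : x i = -1 <;> by_cases h2 : i ∈ C <;> simp_all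
      · exfalso
        by_cases h2 : i ∈ C <;> simp_all
    obtain ⟨u, hu, huD⟩ := mem_image.1 hmem
    obtain ⟨hu1, hu2⟩ := mem_fib.1 hu
    apply hSH
    unfold H
    rw [mem_filter, mem_powersetCard]
    refine ⟨⟨subset_univ _, hS⟩, u, hu1, hu2, Y, hY, ?_, x', hx', ?_⟩
    · rw [hu2]
      exact hYS
    · intro i hi
      rw [hxx' i hi]
      congr 1
      have e1 : u i ≠ 0 := mem_supp.1 (hu2 ▸ hYS hi)
      have e2 : x i ≠ 0 := mem_supp.1 (hYx hi)
      have e3 : u i = -1 ↔ x i = -1 := by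
        have h4 : (⟨i, hYS hi⟩ : S) ∈ nS S u ↔ (⟨i, hYS hi⟩ : S) ∈ A := by
          rw [huD]
        rw [mem_nS, hA] at h4
        simp only [hi, true_and, not_true_eq_false, false_and, or_false] at h4
        exact h4
      rcases pm_of (hF u hu1) e1 with a | a <;> rcases pm_of (hF x hx) e2 with b | b
      · rw [a, b]
      · exact absurd (e3.2 b) (by rw [a]; norm_num)
      · exact absurd (e3.1 a) (by rw [b]; norm_num)
      · rw [a, b]
  have hsum : #(dis S Y C v) + #(dis S Y C w) ≤ 2 * d + 1 := by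
    rw [← card_union_of_disjoint]
    · rw [← hY]
      calc _ = #((dis S Y C v ∪ dis S Y C w).map (Function.Embedding.subtype _)) :=
              (card_map _).symm
        _ ≤ #Y := by
            apply card_le_card
            intro i hi
            obtain ⟨j, hj, rfl⟩ := mem_map.1 hi
            rcases mem_union.1 hj with h | h
            · exact (mem_dis.1 h).1
            · exact (mem_dis.1 h).1
    · rw [Finset.disjoint_left]
      intro i hi hi'
      obtain ⟨hiY, h3⟩ := mem_dis.1 hi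
      obtain ⟨-, h4⟩ := mem_dis.1 hi'
      have e1 : v i ≠ 0 := mem_supp.1 (hYv hiY)
      have e2 := hwv i hiY
      rcases pm_of (hF v hv) e1 with a | a
      · rw [a] at h3 e2
        rw [e2] at h4
        norm_num at h3 h4
        exact h4 h3
      · rw [a] at h3 e2
        rw [e2] at h4
        norm_num at h3 h4
        exact h3 h4
  have hYw : Y ⊆ supp w := by
    intro i hi
    rw [mem_supp, hwv i hi]
    exact neg_ne_zero.2 (mem_supp.1 (hYv hi))
  rcases le_or_gt (#(dis S Y C v)) d with h3 | h3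
  · exact key v hv w hw hYv hwv h3
  · exact key w hw v hv hYw (fun i hi => by rw [hwv i hi, neg_neg]) (by omega)

/-- the upper bound for odd `s` -/
theorem up (hKL : KL2Stm) {d : ℕ} (hk : 2 * d + 2 ≤ k)
    (hn : 2 * d + 1 + 2 ^ (2 * d + 1) * (k - (2 * d + 1)) * (k - (2 * d + 1)) *
      (k.choose (2 * d + 1) * (1 + 2 ^ k)) < n)
    {F : Finset (Fin n → ℤ)} (hF : IndJs n k (2 * d + 1) F) :
    #F ≤ n.choose k * ∑ i ∈ range (d + 1), k.choose i := by
  set s := 2 * d + 1 with hs
  set N := ∑ i ∈ range (d + 1), k.choose i with hN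
  have hNle : ∀ S : Finset (Fin n), #S = k → S ∉ H k s F → #(fib F S) ≤ N := by
    intro S hS hSH
    have hcard : Fintype.card S = k := by rw [Fintype.card_coe, hS]
    have hdiam := diam hF.1 hS hSH
    obtain ⟨h1, -⟩ := hKL S d ((fib F S).image (nS S)) (by rw [hcard]; omega)
      (fun A hA B hB => Nat.le_of_lt_succ (hdiam A hA B hB))
    rw [hcard, card_image_of_injOn (nS_inj hF.1 S)] at h1
    exact h1
  have hsum := sum_le hF.1 hNle
  by_contra hlt
  have hlt' := not_le.1 hlt
  have hLH : #(L k N F) < 2 ^ k * #(H k s F) := by omega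
  have hHpos : 0 < #(H k s F) := by
    rcases Nat.eq_zero_or_pos (#(H k s F)) with h | h
    · rw [h, mul_zero] at hLH
      omega
    · exact h
  set E := H k s F ∪ L k N F with hE
  have hEk : ∀ S ∈ E, #S = k := by
    intro S hS
    rcases mem_union.1 hS with h | h
    · unfold H at h
      exact (mem_powersetCard.1 (mem_filter.1 h).1).2
    · unfold L at h
      exact (mem_powersetCard.1 (mem_filter.1 h).1).2
  have hEc : #E ≤ (1 + 2 ^ k) * #(H k s F) := by
    refine (card_union_le _ _).trans ?_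
    have : (1 + 2 ^ k) * #(H k s F) = #(H k s F) + 2 ^ k * #(H k s F) := by ring
    omega
  set YY := (powersetCard s (univ : Finset (Fin n))).filter fun Y => ∃ v ∈ F, Cl F v Y with hYY
  have hcov : #(H k s F) ≤ ∑ Y ∈ YY, #(cP F Y) := by
    have hsub : H k s F ⊆ YY.biUnion (cP F) := by
      intro S hS
      unfold H at hS
      obtain ⟨-, v, hv, hvS, Y, hY, hcl⟩ := mem_filter.1 hS
      rw [mem_biUnion]
      refine ⟨Y, mem_filter.2 ⟨mem_powersetCard.2 ⟨subset_univ _, hY⟩, v, hv, hcl⟩, ?_⟩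
      unfold cP
      exact mem_image.2 ⟨v, mem_filter.2 ⟨hv, hcl⟩, hvS⟩
    exact (card_le_card hsub).trans card_biUnion_le
  have hpt : ∀ Y ∈ YY, #(cP F Y) * (n - s) ≤
      2 ^ s * (k - s) * (k - s) * #(E.filter fun S => Y ⊆ S) := by
    intro Y hY
    obtain ⟨hY1, v, hv, hcl⟩ := mem_filter.1 hY
    have hYs := (mem_powersetCard.1 hY1).2
    have h1 := cP_le hF (by omega) (by omega) hYs
    have h2 : (n - s).choose (k - s) ≤ #(E.filter fun S => Y ⊆ S) := by
      rw [← hYs, ← card_super Y (by omega)]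
      apply card_le_card
      intro S hS
      obtain ⟨g1, g2⟩ := mem_filter.1 hS
      rw [mem_filter]
      refine ⟨?_, g2⟩
      rw [hE, mem_union]
      by_cases hSH : S ∈ H k s F
      · exact Or.inl hSH
      · right
        unfold L
        rw [mem_filter]
        exact ⟨g1, super_ex hKL hk hF.1 (mem_powersetCard.1 g1).2 hYs g2 hv hcl hSH⟩
    obtain ⟨a, ha⟩ : ∃ a, n - s = a + 1 := ⟨n - s - 1, by omega⟩
    obtain ⟨b, hb⟩ : ∃ b, k - s = b + 1 := ⟨k - s - 1, by omega⟩
    have h3 : (n - (s + 1)).choose (k - (s + 1)) * (n - s) = (n - s).choose (k - s) * (k - s) := by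
      rw [show n - (s + 1) = a by omega, show k - (s + 1) = b by omega, ha, hb, mul_comm]
      exact Nat.add_one_mul_choose_eq a b
    calc #(cP F Y) * (n - s) ≤
          2 ^ s * ((k - s) * (n - (s + 1)).choose (k - (s + 1))) * (n - s) :=
          Nat.mul_le_mul_right _ h1
      _ = 2 ^ s * (k - s) * ((n - (s + 1)).choose (k - (s + 1)) * (n - s)) := by ring
      _ = 2 ^ s * (k - s) * ((n - s).choose (k - s) * (k - s)) := by rw [h3]
      _ = 2 ^ s * (k - s) * (k - s) * (n - s).choose (k - s) := by ring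
      _ ≤ _ := Nat.mul_le_mul_left _ h2
  have hdc : ∑ Y ∈ YY, #(E.filter fun S => Y ⊆ S) ≤ k.choose s * #E := by
    have h1 : ∑ Y ∈ YY, #(E.filter fun S => Y ⊆ S) = ∑ S ∈ E, #(YY.filter fun Y => Y ⊆ S) := by
      simp only [card_filter]
      rw [Finset.sum_comm]
    rw [h1]
    calc ∑ S ∈ E, #(YY.filter fun Y => Y ⊆ S) ≤ ∑ S ∈ E, k.choose s := by
          apply Finset.sum_le_sum
          intro S hS
          rw [← hEk S hS, ← card_powersetCard]
          apply card_le_card
          intro Y hY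
          obtain ⟨g1, g2⟩ := mem_filter.1 hY
          rw [mem_powersetCard]
          exact ⟨g2, (mem_powersetCard.1 (mem_filter.1 g1).1).2⟩
      _ = k.choose s * #E := by rw [sum_const, smul_eq_mul, mul_comm]
  have hfin : #(H k s F) * (n - s) ≤
      #(H k s F) * (2 ^ s * (k - s) * (k - s) * (k.choose s * (1 + 2 ^ k))) := by
    calc #(H k s F) * (n - s) ≤ (∑ Y ∈ YY, #(cP F Y)) * (n - s) := Nat.mul_le_mul_right _ hcov
      _ = ∑ Y ∈ YY, #(cP F Y) * (n - s) := Finset.sum_mul _ _ _
      _ ≤ ∑ Y ∈ YY, 2 ^ s * (k - s) * (k - s) * #(E.filter fun S => Y ⊆ S) :=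
          Finset.sum_le_sum hpt
      _ = 2 ^ s * (k - s) * (k - s) * ∑ Y ∈ YY, #(E.filter fun S => Y ⊆ S) :=
          (Finset.mul_sum _ _ _).symm
      _ ≤ 2 ^ s * (k - s) * (k - s) * (k.choose s * ((1 + 2 ^ k) * #(H k s F))) :=
          Nat.mul_le_mul_left _ (hdc.trans (Nat.mul_le_mul_left _ hEc))
      _ = _ := by ring
  have := Nat.le_of_mul_le_mul_left hfin hHpos
  omega

/-- **Package ODD.** -/
theorem odd (hKL : KL2Stm) (k d : ℕ) : ∃ n₀ : ℕ, ∀ n : ℕ, n₀ ≤ n → ∀ F : Finset (Fin n → ℤ),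
    IndJs n k (2 * d + 1) F → ∃ F', IndKs n k (2 * d + 1) F' ∧ #F ≤ #F' := by
  rcases le_or_gt k (2 * d + 1) with hk | hk
  · exact ⟨0, fun n _ F hF => ⟨F, triv hk hF, le_rfl⟩⟩
  · refine ⟨2 * d + 1 + 2 ^ (2 * d + 1) * (k - (2 * d + 1)) * (k - (2 * d + 1)) *
      (k.choose (2 * d + 1) * (1 + 2 ^ k)) + 1, fun n hn F hF => ?_⟩
    obtain ⟨F', hF', hc⟩ := low n k d
    exact ⟨F', hF', (up hKL (by omega) (by omega) hF).trans hc.ge⟩

end Pool.Agent.Helper43.SG
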