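import Pool.Agent.Helper43.SG.ODD
import Pool.Agent.Helper1.SG.KL2
import Pool.Agent.Helper72.KL.REV

/-!
# Project SG: the package ODD
-/

set_option autoImplicit false

open Finset

/-- **Package ODD**: the theorem for families and odd `t = -(2 d + 1)`. -/
theorem Pool.Agent.Helper43.SG.oddF (k d : ℕ) : ∃ n₀ : ℕ, ∀ n : ℕ, n₀ ≤ n →
    ∀ F : Finset (Fin n → ℤ),
    ((∀ v ∈ F, SJ.IsV n k v) ∧ ∀ u ∈ F, ∀ v ∈ F, u ≠ v → SJ.dot u v ≠ -(2 * (d : ℤ) + 1)) →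
    ∃ F' : Finset (Fin n → ℤ), ((∀ v ∈ F', SJ.IsV n k v) ∧
      ∀ u ∈ F', ∀ v ∈ F', u ≠ v → ¬ SJ.dot u v ≤ -(2 * (d : ℤ) + 1)) ∧ #F ≤ #F' := by
  obtain ⟨n₀, h⟩ := Pool.Agent.Helper43.SG.odd
    (Pool.Agent.Helper1.SG.kl2 fun ι _ _ d F x hm hF C hC =>
      Pool.Agent.Helper72.KL.rev ι d F x hm hF C hC) k d
  have e : -(((2 * d + 1 : ℕ) : ℤ)) = -(2 * (d : ℤ) + 1) := by push_cast; ring
  refine ⟨n₀, fun n hn F hF => ?_⟩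
  obtain ⟨F', hF', hc⟩ := h n hn F ⟨hF.1, fun u hu v hv huv => by rw [e]; exact hF.2 u hu v hv huv⟩
  exact ⟨F', ⟨hF'.1, fun u hu v hv huv => by rw [← e]; exact hF'.2 u hu v hv huv⟩, hc⟩

/-- **Package ODD**, with the hypothesis `2 d + 2 ≤ k` of the board (not needed). -/
theorem Pool.Agent.Helper43.SG.odd' (k d : ℕ) (_hk : 2 * d + 2 ≤ k) : ∃ n₀ : ℕ, ∀ n : ℕ,
    n₀ ≤ n → ∀ F : Finset (Fin n → ℤ),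
    ((∀ v ∈ F, SJ.IsV n k v) ∧ ∀ u ∈ F, ∀ v ∈ F, u ≠ v → SJ.dot u v ≠ -(2 * (d : ℤ) + 1)) →
    ∃ F' : Finset (Fin n → ℤ), ((∀ v ∈ F', SJ.IsV n k v) ∧
      ∀ u ∈ F', ∀ v ∈ F', u ≠ v → ¬ SJ.dot u v ≤ -(2 * (d : ℤ) + 1)) ∧ #F ≤ #F' :=
  Pool.Agent.Helper43.SG.oddF k d
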